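import Pool.Agent.Q188.Cent.Model

/-!
# MP_d39bc3_gt, Q1: a domain with the section-centroid collinearity property whose boundary is
neither an ellipsoid, nor a paraboloid, nor a sheet of a hyperboloid

For every `n ≥ 2` the domain `{x : x_k > 0, ∏ x_k > 1}` of `ℝ^{n+1}` is a counterexample.
The notions are defined for subsets of a real inner product space `E`; they are applied to
`E = ℝ^{n+1}`.
-/

namespace Pool.Agent.Results.MP_d39bc3_gt.ProductDomain

open MeasureTheory Set Module Topology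
open scoped InnerProductSpace

variable {E : Type*} [NormedAddCommGroup E] [InnerProductSpace ℝ E]

/-- The section `(x + M) ∩ Ω`. -/
def sec (M : Submodule ℝ E) (x : E) (Ω : Set E) : Set E := {y | y ∈ Ω ∧ y - x ∈ M}

/-- The centroid `(1 / ℋⁿ(S)) ∫_S x dℋⁿ(x)` of an `n`-dimensional section `S`, where `ℋⁿ` is the
`n`-dimensional Hausdorff measure. -/
noncomputable def cen [MeasurableSpace E] [BorelSpace E] (n : ℕ) (S : Set E) : E :=
  (Measure.hausdorffMeasure (n : ℝ) S).toReal⁻¹ • ∫ y in S, y ∂(Measure.hausdorffMeasure (n : ℝ))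

/-- `Ω` is a nonempty convex open set, whose closure is strictly convex, with smooth boundary: near
each boundary point `Ω` is the positivity set of a smooth function with nonzero differential. -/
structure IsStrictlyConvexSmoothDomain (Ω : Set E) : Prop where
  isOpen : IsOpen Ω
  nonempty : Ω.Nonempty
  convex : Convex ℝ Ω
  strictConvex : StrictConvex ℝ (closure Ω)
  smooth : ∀ p ∈ frontier Ω, ∃ F : E → ℝ, ContDiff ℝ (⊤ : ℕ∞) F ∧ fderiv ℝ F p ≠ 0 ∧
    ∃ U ∈ 𝓝 p, Ω ∩ U = {y | 0 < F y} ∩ U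

/-- The section-centroid collinearity property of `Ω ⊆ ℝ^{n+1}`: for every `n`-dimensional linear
subspace `M` for which the sections `(x + M) ∩ Ω` are bounded, the centroids of the sections with
`(x + M) ∩ int Ω ≠ ∅` lie on a single line `{p + t d}`. (The sections have positive finite
`ℋⁿ`-measure, so that the centroid makes sense.) -/
def SCCP [MeasurableSpace E] [BorelSpace E] (n : ℕ) (Ω : Set E) : Prop :=
  ∀ M : Submodule ℝ E, finrank ℝ M = n → (∀ x, Bornology.IsBounded (sec M x Ω)) →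
    ∃ p d : E, d ≠ 0 ∧ ∀ x, (sec M x (interior Ω)).Nonempty →
      0 < Measure.hausdorffMeasure (n : ℝ) (sec M x Ω) ∧
      Measure.hausdorffMeasure (n : ℝ) (sec M x Ω) < ⊤ ∧
      ∃ t : ℝ, cen n (sec M x Ω) = p + t • d

/-- `S` is an ellipsoid: an affine image of the unit sphere. -/
def IsEllipsoid (S : Set E) : Prop :=
  ∃ φ : E ≃ᵃ[ℝ] E, φ '' S = {y | ‖y‖ = 1}

/-- `S` is a paraboloid: an affine image of `{y : ⟪e, y⟫ = |y'|²}`, where `e` is a unit vector and
`y' = y - ⟪e, y⟫ e` is the component of `y` orthogonal to `e`. -/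
def IsParaboloid (S : Set E) : Prop :=
  ∃ (φ : E ≃ᵃ[ℝ] E) (e : E), ‖e‖ = 1 ∧
    φ '' S = {y | ⟪e, y⟫_ℝ = ‖y - ⟪e, y⟫_ℝ • e‖ ^ 2}

/-- `S` is one sheet of a two-sheeted hyperboloid: an affine image of
`{y : ⟪e, y⟫² = 1 + |y'|², ⟪e, y⟫ > 0}`, where `e` is a unit vector and `y' = y - ⟪e, y⟫ e` is the
component of `y` orthogonal to `e`. -/
def IsHyperboloidSheet (S : Set E) : Prop :=
  ∃ (φ : E ≃ᵃ[ℝ] E) (e : E), ‖e‖ = 1 ∧
    φ '' S = {y | 0 < ⟪e, y⟫_ℝ ∧ ⟪e, y⟫_ℝ ^ 2 = 1 + ‖y - ⟪e, y⟫_ℝ • e‖ ^ 2}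

/-- The domain `{x : x_k > 0 for all k, ∏ x_k > 1}` of `ℝ^{n+1}`. -/
def productDomain (n : ℕ) : Set (EuclideanSpace ℝ (Fin (n + 1))) :=
  {x | (∀ k, 0 < x k) ∧ 1 < ∏ k, x k}

lemma sq_aux {e y : E} (he : ‖e‖ = 1) : ‖y - ⟪e, y⟫_ℝ • e‖ ^ 2 = ‖y‖ ^ 2 - ⟪e, y⟫_ℝ ^ 2 := by
  rw [norm_sub_sq_real, inner_smul_right, norm_smul, he, real_inner_comm e y, Real.norm_eq_abs,
    mul_one, sq_abs]
  ring

/-- **Answer to Q1 (disproof, for every `n ≥ 2`).** The domain `{x : x_k > 0, ∏ x_k > 1}` of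
`ℝ^{n+1}` is a strictly convex domain with smooth boundary which has the section-centroid
collinearity property, and its boundary is neither an ellipsoid, nor a paraboloid, nor one sheet
of a two-sheeted hyperboloid. -/
theorem result (n : ℕ) (hn : 2 ≤ n) :
    IsStrictlyConvexSmoothDomain (productDomain n) ∧ SCCP n (productDomain n) ∧
    ¬ IsEllipsoid (frontier (productDomain n)) ∧ ¬ IsParaboloid (frontier (productDomain n)) ∧
    ¬ IsHyperboloidSheet (frontier (productDomain n)) := by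
  have hΩ : productDomain n = Q188.Cent.Om n := rfl
  rw [hΩ]
  refine ⟨⟨Q188.Cent.isOpen_Om, Q188.Cent.nonempty_Om, Q188.Cent.convex_Om,
    Q188.Cent.strictConvex_closure, ?_⟩, ?_, ?_, ?_, ?_⟩
  · intro p hp
    refine ⟨fun y => ∏ k, y k - 1, by fun_prop, Q188.Cent.fderiv_ne hp, {y | ∀ k, 0 < y k}, ?_, ?_⟩
    · refine IsOpen.mem_nhds ?_ (Q188.Cent.frontier_prod hp).1
      simp only [Set.ofPred_forall]
      exact isOpen_iInter_of_finite fun k => isOpen_lt continuous_const (by fun_prop)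
    · ext y
      constructor
      · rintro ⟨h1, h2⟩
        exact ⟨by have := h1.2; show 0 < ∏ k, y k - 1; linarith, h2⟩
      · rintro ⟨h1, h2⟩
        exact ⟨⟨h2, by have : 0 < ∏ k, y k - 1 := h1; linarith⟩, h2⟩
  · intro M hM hb
    have h1 : finrank ℝ (Mᗮ : Submodule ℝ (EuclideanSpace ℝ (Fin (n + 1)))) = 1 := by
      have h2 := M.finrank_add_finrank_orthogonal
      rw [hM, finrank_euclideanSpace_fin] at h2
      omega
    obtain ⟨⟨u, hu⟩, hu0, hspan⟩ := finrank_eq_one_iff'.1 h1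
    have hMu : M = (ℝ ∙ u)ᗮ := by
      rw [← M.orthogonal_orthogonal]
      congr 1
      apply le_antisymm
      · intro w hw
        obtain ⟨c, hc⟩ := hspan ⟨w, hw⟩
        rw [Submodule.mem_span_singleton]
        exact ⟨c, congrArg Subtype.val hc⟩
      · rw [Submodule.span_singleton_le_iff_mem]; exact hu
    subst hMu
    have hs := Q188.Cent.sign_of_bounded (by omega) hb
    have hu0' : ∀ k, u k ≠ 0 := fun k h => by
      have := hs k k; rw [h] at this; norm_num at this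
    refine ⟨0, Q188.Cent.wv u, Q188.Cent.wv_ne hu0', fun x hx => ?_⟩
    rw [Q188.Cent.isOpen_Om.interior_eq] at hx
    obtain ⟨k1, k2, k3⟩ := Q188.Cent.section_facts hs hM hb x hx
    exact ⟨k1, k2, _, by rw [zero_add]; exact k3⟩
  · rintro ⟨φ, hφ⟩
    refine Q188.Cent.no_model' hn φ 0 0 0 (-1) fun y hy => ?_
    have h1 : φ y ∈ φ '' frontier (Q188.Cent.Om n) := mem_image_of_mem _ hy
    rw [hφ] at h1
    have h2 : ‖φ y‖ = 1 := h1
    rw [h2]; norm_num
  · rintro ⟨φ, e, he, hφ⟩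
    refine Q188.Cent.no_model' hn φ e (-1) (-1) 0 fun y hy => ?_
    have h1 : φ y ∈ φ '' frontier (Q188.Cent.Om n) := mem_image_of_mem _ hy
    rw [hφ] at h1
    have h2 : ⟪e, φ y⟫_ℝ = ‖φ y - ⟪e, φ y⟫_ℝ • e‖ ^ 2 := h1
    rw [sq_aux he] at h2
    linarith
  · rintro ⟨φ, e, he, hφ⟩
    refine Q188.Cent.no_model' hn φ e (-2) 0 1 fun y hy => ?_
    have h1 : φ y ∈ φ '' frontier (Q188.Cent.Om n) := mem_image_of_mem _ hy
    rw [hφ] at h1
    have h2 : ⟪e, φ y⟫_ℝ ^ 2 = 1 + ‖φ y - ⟪e, φ y⟫_ℝ • e‖ ^ 2 := h1.2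
    rw [sq_aux he] at h2
    linarith

end Pool.Agent.Results.MP_d39bc3_gt.ProductDomain
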